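import Pool.Agent.helper91.HZ.Spec

/-!
# Row hz:ADS (MP_2e0e07): from the Lie algebra to a subquotient of `V ⊗ V^∨`
-/

set_option autoImplicit false

namespace Pool.Agent.HZ

open Matrix Polynomial Pool.Agent.GO Pool.Agent.AR Pool.Agent.RG

/-- the matrix of a vector of `V ⊗ V^∨` -/
def ADS_mx (F m : Type) [Field F] : ((Fin 1 → m) × (Fin 1 → m) → F) →ₗ[F] Matrix m m F where
  toFun x := Matrix.of fun a b => x (fun _ => a, fun _ => b)
  map_add' _ _ := rfl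
  map_smul' _ _ := rfl

theorem ADS_act {F Γ m : Type} [Field F] [Group Γ] [Fintype m] [DecidableEq m]
    (V : Γ →* Matrix m m F) (g : Γ) (x : (Fin 1 → m) × (Fin 1 → m) → F) :
    ADS_mx F m (tens V 1 1 g *ᵥ x) = V g * ADS_mx F m x * V g⁻¹ := by
  ext a b
  rw [Matrix.mul_apply]
  show ∑ pq : (Fin 1 → m) × (Fin 1 → m), tens V 1 1 g (fun _ => a, fun _ => b) pq * x pq = _
  rw [Fintype.sum_prod_type_right]
  refine Fintype.sum_equiv (Equiv.funUnique (Fin 1) m) _ _ fun q => ?_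
  rw [Matrix.mul_apply, Finset.sum_mul]
  refine Fintype.sum_equiv (Equiv.funUnique (Fin 1) m) _ _ fun p => ?_
  have hp : p = fun _ => p 0 := by
    funext k
    rw [Subsingleton.elim k 0]
  have hq : q = fun _ => q 0 := by
    funext k
    rw [Subsingleton.elim k 0]
  have h1 : tens V 1 1 g (fun _ => a, fun _ => b) (p, q) = V g a (p 0) * V g⁻¹ (q 0) b := by
    show (∏ _k : Fin 1, V g a (p _k)) * ∏ _k : Fin 1, V g⁻¹ (q _k) b = _
    rw [Fin.prod_univ_one, Fin.prod_univ_one]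
  have h2 : ADS_mx F m x (Equiv.funUnique (Fin 1) m p) (Equiv.funUnique (Fin 1) m q) = x (p, q) := by
    show x (fun _ => p 0, fun _ => q 0) = x (p, q)
    rw [← hp, ← hq]
  rw [h1, h2]
  show V g a (p 0) * V g⁻¹ (q 0) b * x (p, q) = V g a (p 0) * x (p, q) * V g⁻¹ (q 0) b
  ring

theorem ADS : ADS_stmt := by
  intro F Γ m _ _ _ _ V ρ L hL hinj htr
  let f : L →ₗ[F] Matrix m m F := (LinearMap.fst F (Matrix m m F) (Matrix (Fin 2) (Fin 2) F)).domRestrict L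
  have hf : Function.Injective f := by
    rw [injective_iff_map_eq_zero]
    intro X hX
    have h1 : X.1.1 = 0 := hX
    have h2 : X.1.2 = 0 := hinj X.1 X.2 h1
    exact Subtype.ext (Prod.ext h1 h2)
  let e : L ≃ₗ[F] f.range := LinearEquiv.ofInjective f hf
  let Q : Submodule F ((Fin 1 → m) × (Fin 1 → m) → F) := f.range.comap (ADS_mx F m)
  have hQ : ∀ x ∈ Q, ∃ X ∈ L, X.1 = ADS_mx F m x := by
    rintro x ⟨X, hX⟩
    exact ⟨X.1, X.2, hX⟩
  have hQ' : ∀ x, (∃ X ∈ L, X.1 = ADS_mx F m x) → x ∈ Q := by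
    rintro x ⟨X, hXL, hX⟩
    exact ⟨⟨X, hXL⟩, hX⟩
  let π : Q →ₗ[F] Matrix (Fin 2) (Fin 2) F :=
    ((LinearMap.snd F (Matrix m m F) (Matrix (Fin 2) (Fin 2) F)).comp L.subtype).comp
      (e.symm.toLinearMap.comp ((ADS_mx F m).restrict (p := Q) (q := f.range) fun x hx => hx))
  have hπ : ∀ (x : Q) (X : Matrix m m F × Matrix (Fin 2) (Fin 2) F), X ∈ L → X.1 = ADS_mx F m x.1 →
      π x = X.2 := by
    intro x X hXL hX
    have h1 : e.symm ((ADS_mx F m).restrict (p := Q) (q := f.range) (fun x hx => hx) x) = ⟨X, hXL⟩ := by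
      rw [LinearEquiv.symm_apply_eq]
      apply Subtype.ext
      show ADS_mx F m x.1 = X.1
      exact hX.symm
    show (e.symm ((ADS_mx F m).restrict (p := Q) (q := f.range) (fun x hx => hx) x)).1.2 = X.2
    rw [h1]
  have hst : ∀ g, ∀ x ∈ Q, tens V 1 1 g *ᵥ x ∈ Q := by
    intro g x hx
    obtain ⟨X, hXL, hX⟩ := hQ x hx
    refine hQ' _ ⟨_, hL g X hXL, ?_⟩
    rw [ADS_act, ← hX]
  refine ⟨Q, fun u _ x hx => hst u x hx, π, ?_, ?_⟩
  · intro Z
    rw [← htr Z]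
    constructor
    · rintro ⟨x, rfl⟩
      obtain ⟨X, hXL, hX⟩ := hQ x.1 x.2
      exact ⟨X, hXL, (hπ x X hXL hX).symm⟩
    · rintro ⟨X, hXL, rfl⟩
      let x : (Fin 1 → m) × (Fin 1 → m) → F := fun pq => X.1 (pq.1 0) (pq.2 0)
      have hx : X.1 = ADS_mx F m x := rfl
      exact ⟨⟨x, hQ' x ⟨X, hXL, hx⟩⟩, hπ _ X hXL hx⟩
  · intro g _ x
    obtain ⟨X, hXL, hX⟩ := hQ x.1 x.2
    rw [hπ x X hXL hX]
    refine hπ _ _ (hL g X hXL) ?_
    show V g * X.1 * V g⁻¹ = ADS_mx F m (tens V 1 1 g *ᵥ x.1)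
    rw [ADS_act, ← hX]

end Pool.Agent.HZ
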